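import Pool.Agent.PX.Stmts

set_option autoImplicit false

/-!
# Squad PX, row THX: theorem PX from one step
-/

namespace Pool.Agent.PX.H9

open MvPolynomial
open Pool.Agent.RS (FF io)
open Pool.Agent.PW (Free Zer aBas)
open Pool.Agent.PX

theorem thx_free_mono {E D : Type} [Field E] [CommRing D] [Algebra E D] {m m' : ℕ} (h : m ≤ m')
    {ζ : ℕ → D} (hf : Free E m' ζ) : Free E m ζ :=
  fun I hI => hf I (hI.trans h)

/-- Iteration of STP. -/
theorem thx_iter (hSTP : StxStmt) (hWWM : WwxStmt) (c0 R c : ℕ) :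
    ∀ ρ : ℕ, ∃ c' r N0 m : ℕ, c ≤ c' ∧ ∀ N : ℕ, N0 ≤ N →
      ∀ (E D : Type) [Field E] [CharZero E] [CommRing D] [IsDomain D] [Algebra E D] (ζ : ℕ → D),
        Free E m ζ → ∀ W : FF E, W ∈ WW E c0 (R + 1) c →
          (∀ J : Finset ℕ, J.card ≤ r → Zer ζ J W) →
          W ∈ GT E c0 N (R + 1) c' ρ ⊔ BT E c0 N (R + 1) c' ⊔ WW E c0 R c' := by
  intro ρ
  induction ρ with
  | zero =>
    refine ⟨c, 0, 0, 0, le_rfl, ?_⟩
    intro N _ E D _ _ _ _ _ ζ _ W hW _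
    obtain ⟨-, -, h3, -⟩ := hWWM E c0
    exact h3 R c N hW
  | succ ρ ih =>
    obtain ⟨c', r, N0, m, hc, h⟩ := ih
    obtain ⟨c'', r', N0', m', hc', h'⟩ := hSTP c0 R c' ρ
    refine ⟨c'', max r r', max N0 N0', max m m', hc.trans hc', ?_⟩
    intro N hN E D _ _ _ _ _ ζ hζ W hW hJ
    refine h' N ((le_max_right _ _).trans hN) E D ζ (thx_free_mono (le_max_right _ _) hζ) W ?_
      fun J hJc => hJ J (hJc.trans (le_max_right _ _))
    exact h N ((le_max_left _ _).trans hN) E D ζ (thx_free_mono (le_max_left _ _) hζ) W hW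
      fun J hJc => hJ J (hJc.trans (le_max_left _ _))

/-- ROW THX. -/
theorem thx (hSTP : StxStmt) (hBAD : BaxStmt) (hWWM : WwxStmt) : ThxStmt := by
  intro c0 R
  induction R with
  | zero =>
    intro c
    refine ⟨c, 0, ?_⟩
    intro E D _ _ _ _ _ ζ _ W hW hJ
    obtain ⟨-, -, -, -, h5, -⟩ := hWWM E c0
    refine aBas E D ζ c ∅ W (h5 c W hW) fun J _ hJc => hJ J ?_
    simpa using hJc
  | succ R ih =>
    intro c
    obtain ⟨c', r₁, N, m₁, hc, h⟩ := thx_iter hSTP hWWM c0 R c (R + 2)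
    obtain ⟨r₂, m₂, h₂⟩ := ih (c' + N)
    refine ⟨max r₁ r₂, max m₁ m₂, ?_⟩
    intro E D _ _ _ _ _ ζ hζ W hW hJ
    have hW1 := h N le_rfl E D ζ (thx_free_mono (le_max_left _ _) hζ) W hW
      fun J hJc => hJ J (hJc.trans (le_max_left _ _))
    obtain ⟨h1, -, -, h4, -, -⟩ := hWWM E c0
    rw [h4 (R + 1) c' N (R + 2) (Nat.lt_succ_self _), bot_sup_eq] at hW1
    refine h₂ E D ζ (thx_free_mono (le_max_right _ _) hζ) W ?_
      fun J hJc => hJ J (hJc.trans (le_max_right _ _))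
    have hle : BT E c0 N (R + 1) c' ⊔ WW E c0 R c' ≤ WW E c0 R (c' + N) :=
      sup_le (hBAD E c0 N R c') (h1 R R c' (c' + N) le_rfl (Nat.le_add_right _ _))
    exact hle hW1

end Pool.Agent.PX.H9
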